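import Pool.Agent.H96.NoDiff

set_option autoImplicit false
open Set Filter Topology

namespace Pool.Agent.Results.MP_a2bddf_an.Yes

theorem good (δ : ℝ) (w : ℝ → ℝ) (hw : ∀ h ∈ Ioo 0 δ, 0 < w h) (mw : MonotoneOn w (Ioo 0 δ))
    (h1 : Tendsto (fun h => w h / h) (𝓝[>] 0) atTop) (η : ℝ) (hη : η ∈ Ioo 0 δ) :
    ∃ h ∈ Ioc 0 η, ∀ t ∈ Ioc 0 h, w h / h ≤ 2 * (w t / t) := by
  obtain ⟨s, hs, h2⟩ := (mem_nhdsGT_iff_exists_Ioc_subset.mp
    ((h1.eventually_ge_atTop 1).and (Ioc_mem_nhdsGT hη.1)))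
  have hs0 : 0 < s := hs
  have hs1 : s ∈ Ioo 0 δ := ⟨hs0, (h2 ⟨hs0, le_rfl⟩).2.2.trans_lt hη.2⟩
  have hb : ∀ t ∈ Ioc 0 η, min 1 (w s / η) ≤ w t / t := by
    intro t ht
    rcases le_total t s with h | h
    · exact (min_le_left _ _).trans (h2 ⟨ht.1, h⟩).1
    · exact (min_le_right _ _).trans (div_le_div₀ (hw t ⟨ht.1, ht.2.trans_lt hη.2⟩).le
        (mw hs1 ⟨ht.1, ht.2.trans_lt hη.2⟩ h) ht.1 ht.2)
  have hne : ((fun t => w t / t) '' Ioc 0 η).Nonempty := ⟨_, η, ⟨hη.1, le_rfl⟩, rfl⟩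
  have hbd : BddBelow ((fun t => w t / t) '' Ioc 0 η) := ⟨_, forall_mem_image.mpr hb⟩
  have h3 : 0 < sInf ((fun t => w t / t) '' Ioc 0 η) :=
    lt_of_lt_of_le (lt_min one_pos (div_pos (hw s hs1) hη.1)) (le_csInf hne (forall_mem_image.mpr hb))
  obtain ⟨_, ⟨h, hh, rfl⟩, h4⟩ := exists_lt_of_csInf_lt hne (lt_two_mul_self h3)
  exact ⟨h, hh, fun t ht => h4.le.trans (by
    gcongr; exact csInf_le hbd ⟨t, ⟨ht.1, ht.2.trans hh.2⟩, rfl⟩)⟩

theorem seq (δ : ℝ) (hδ : 0 < δ) (w : ℝ → ℝ) (hw : ∀ h ∈ Ioo 0 δ, 0 < w h)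
    (mw : MonotoneOn w (Ioo 0 δ)) (tw : Tendsto w (𝓝[>] 0) (𝓝 0))
    (h1 : Tendsto (fun h => w h / h) (𝓝[>] 0) atTop) :
    ∃ h : ℕ → ℝ, (∀ k, h k ∈ Ioo 0 δ ∧ ∀ t ∈ Ioc 0 (h k), w (h k) / h k ≤ 2 * (w t / t)) ∧
      ∀ k, 100 * w (h (k + 1)) ≤ w (h k) ∧ 100 * (w (h k) / h k) ≤ w (h (k + 1)) / h (k + 1) := by
  have step : ∀ a : {a // a ∈ Ioo 0 δ ∧ ∀ t ∈ Ioc 0 a, w a / a ≤ 2 * (w t / t)},
      ∃ b : {a // a ∈ Ioo 0 δ ∧ ∀ t ∈ Ioc 0 a, w a / a ≤ 2 * (w t / t)},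
        100 * w b ≤ w a ∧ 100 * (w a / a) ≤ w b / b := by
    intro a
    obtain ⟨s, hs, h2⟩ := (mem_nhdsGT_iff_exists_Ioc_subset.mp
      (((h1.eventually_ge_atTop (100 * (w a / a))).and (Ioo_mem_nhdsGT hδ)).and
        (tw.eventually (ge_mem_nhds (show 0 < w a / 100 from div_pos (hw _ a.2.1) (by norm_num))))))
    obtain ⟨b, hb, h3⟩ := good δ w hw mw h1 s (h2 ⟨hs, le_rfl⟩).1.2
    exact ⟨⟨b, (h2 hb).1.2, h3⟩, by linarith [(h2 hb).2], (h2 hb).1.1⟩
  choose F hF using step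
  obtain ⟨b, hb, h3⟩ := good δ w hw mw h1 (δ / 2) ⟨by linarith, by linarith⟩
  let a : {a // a ∈ Ioo 0 δ ∧ ∀ t ∈ Ioc 0 a, w a / a ≤ 2 * (w t / t)} :=
    ⟨b, ⟨hb.1, by linarith [hb.2]⟩, h3⟩
  exact ⟨fun k => (F^[k] a).1, fun k => (F^[k] a).2, fun k => by
    simp only [Function.iterate_succ_apply']; exact hF _⟩

theorem result (δ : ℝ) (hδ : 0 < δ) (w φ : ℝ → ℝ) (hw : ∀ h ∈ Ioo 0 δ, 0 < w h)
    (hφ : ∀ h ∈ Ioo 0 δ, 0 < φ h) (mw : MonotoneOn w (Ioo 0 δ)) (mφ : MonotoneOn φ (Ioo 0 δ))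
    (tw : Tendsto w (𝓝[>] 0) (𝓝 0)) (h1 : Tendsto (fun h => w h / h) (𝓝[>] 0) atTop)
    (h2 : Tendsto (fun h => w h / φ h) (𝓝[>] 0) atTop) :
    ∃ f : ℝ → ℝ, (∀ x h : ℝ, 0 < |h| → |h| < δ → |f (x + h) - f x| < w |h|) ∧
      ∀ x M : ℝ, ∃ᶠ h in 𝓝[≠] (0 : ℝ), M < abs ((f (x + h) - f x) / φ |h|) := by
  obtain ⟨h, hh, hs⟩ := seq δ hδ w hw mw tw h1
  have A0 : ∀ k, 0 < w (h k) := fun k => hw _ (hh k).1
  have h0 : ∀ k, 0 < h k := fun k => (hh k).1.1
  have geo : ∀ k j, w (h (j + k)) ≤ w (h k) * (1 / 100) ^ j := by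
    intro k j
    induction j with
    | zero => simp
    | succ j ih => rw [pow_succ, add_right_comm]; linarith [(hs (j + k)).1]
  have low : ∀ k, 99 * ∑ j ∈ Finset.range k, w (h j) / h j ≤ w (h k) / h k := by
    intro k
    induction k with
    | zero => simpa using (div_pos (A0 0) (h0 0)).le
    | succ k ih => rw [Finset.sum_range_succ]; linarith [(hs k).2]
  have hg := hasSum_geometric_of_lt_one (r := (1 / 100 : ℝ)) (by norm_num) (by norm_num)
  have half : ∀ k, h (k + 1) ≤ h k * (1 / 100) := by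
    intro k
    have a := (hs k).2
    rw [← mul_div_assoc, div_le_div_iff₀ (h0 _) (h0 _)] at a
    by_contra hn
    nlinarith [(hs k).1, A0 k, A0 (k + 1), h0 k, h0 (k + 1), mul_pos (A0 k) (sub_pos.mpr (not_le.mp hn))]
  have hto : Tendsto h atTop (𝓝[>] 0) := by
    refine tendsto_nhdsWithin_iff.mpr ⟨?_, Eventually.of_forall h0⟩
    have := (tendsto_pow_atTop_nhds_zero_of_lt_one (r := (1 / 100 : ℝ)) (by norm_num)
      (by norm_num)).const_mul (h 0)
    rw [mul_zero] at this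
    refine squeeze_zero (fun k => (h0 k).le) (fun k => ?_) this
    induction k with
    | zero => simp
    | succ k ih => rw [pow_succ]; linarith [half k]
  let a : ℕ → ℝ → ℝ := fun k x => w (h k) * Real.cos (x / (h k / 7))
  have a1 : ∀ k x, |a k x| ≤ w (h k) := fun k x => by
    rw [abs_mul, abs_of_pos (A0 k)]
    exact mul_le_of_le_one_right (A0 k).le (Real.abs_cos_le_one _)
  have sa : ∀ x, Summable fun k => a k x := fun x =>
    Summable.of_norm_bounded (hg.summable.mul_left (w (h 0))) fun k => (a1 k x).trans (geo 0 k)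
  have split : ∀ x t k, (∑' j, a j (x + t)) - ∑' j, a j x =
      ∑ j ∈ Finset.range k, (a j (x + t) - a j x) + ∑' j, (a (j + k) (x + t) - a (j + k) x) := by
    intro x t k
    rw [← (sa _).tsum_sub (sa _), ← ((sa _).sub (sa _)).sum_add_tsum_nat_add k]
  have hi : ∀ x t k, |∑' j, (a (j + k) (x + t) - a (j + k) x)| ≤ 3 * w (h k) := by
    intro x t k
    refine (tsum_of_norm_bounded (f := fun j => a (j + k) (x + t) - a (j + k) x)
      (hg.mul_left (2 * w (h k))) fun j => ?_).trans (show _ ≤ 3 * w (h k) by linarith [A0 k])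
    refine (abs_sub _ _).trans ?_
    linarith [a1 (j + k) (x + t), a1 (j + k) x, geo k j]
  have lo : ∀ x t k, |∑ j ∈ Finset.range k, (a j (x + t) - a j x)| ≤
      7 * |t| * ∑ j ∈ Finset.range k, w (h j) / h j := by
    intro x t k
    rw [Finset.mul_sum]
    refine (Finset.abs_sum_le_sum_abs _ _).trans (Finset.sum_le_sum fun j _ => ?_)
    rw [← mul_sub, abs_mul, abs_of_pos (A0 j)]
    have := Real.abs_cos_sub_cos_le ((x + t) / (h j / 7)) (x / (h j / 7))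
    rw [← sub_div, add_sub_cancel_left, abs_div, abs_of_pos (a := h j / 7) (by linarith [h0 j])] at this
    refine (mul_le_mul_of_nonneg_left this (A0 j).le).trans (le_of_eq ?_)
    have := (h0 j).ne'
    field_simp
  refine ⟨fun x => (∑' j, a j x) / 20, fun x t t0 t1 => ?_, fun x M => ?_⟩
  · have wt := hw _ ⟨t0, t1⟩
    rw [← sub_div, abs_div, abs_of_pos (a := (20 : ℝ)) (by norm_num), div_lt_iff₀ (by norm_num)]
    have ex : ∃ k, h k < |t| := (hto.eventually (nhdsWithin_le_nhds (gt_mem_nhds t0))).exists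
    have b1 := mw (hh _).1 ⟨t0, t1⟩ (Nat.find_spec ex).le
    have b2 := hi x t (Nat.find ex)
    have b3 := lo x t (Nat.find ex)
    rw [split x t (Nat.find ex)]
    refine (abs_add_le _ _).trans_lt ?_
    suffices 7 * |t| * ∑ j ∈ Finset.range (Nat.find ex), w (h j) / h j ≤ 16 * w |t| by linarith
    rcases hk : Nat.find ex with _ | k
    · simp; linarith
    · have b4 := (hh k).2 |t| ⟨t0, not_lt.mp (Nat.find_min ex (by omega))⟩
      have b5 := low k
      have b6 : |t| * (w |t| / |t|) = w |t| := by field_simp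
      rw [Finset.sum_range_succ]
      nlinarith [mul_le_mul_of_nonneg_left b4 t0.le, mul_le_mul_of_nonneg_left b5 t0.le]
  · rw [Filter.frequently_iff]
    intro U hU
    obtain ⟨η, hη, hU⟩ := Metric.mem_nhdsWithin_iff.mp hU
    obtain ⟨k, k1, k2⟩ := (((h2.comp hto).eventually_gt_atTop (40 * |M|)).and
      (hto.eventually (nhdsWithin_le_nhds (gt_mem_nhds hη)))).exists
    obtain ⟨u, hu, hu2⟩ : ∃ u ∈ uIcc x (x + h k),
        1 ≤ |Real.cos (u / (h k / 7)) - Real.cos (x / (h k / 7))| := by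
      have hk : 7 * (h k / 7) ≤ |x + h k - x| := by
        rw [add_sub_cancel_left, abs_of_pos (h0 k)]; linarith
      rcases le_total 0 (Real.cos (x / (h k / 7))) with q | q
      · obtain ⟨u, hu, e⟩ := Pool.Agent.H96.NoDiff.hit (by linarith [h0 k]) _ _ Real.pi hk
        exact ⟨u, hu, by rw [e, Real.cos_pi, le_abs]; right; linarith⟩
      · obtain ⟨u, hu, e⟩ := Pool.Agent.H96.NoDiff.hit (by linarith [h0 k]) _ _ 0 hk
        exact ⟨u, hu, by rw [e, Real.cos_zero, le_abs]; left; linarith⟩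
    obtain ⟨t, rfl⟩ : ∃ t, u = x + t := ⟨u - x, by ring⟩
    have t1 : |t| ≤ h k := by simpa [abs_of_pos (h0 k)] using abs_sub_left_of_mem_uIcc hu
    have t0 : t ≠ 0 := by rintro rfl; norm_num at hu2
    have t2 : |t| ∈ Ioo 0 δ := ⟨abs_pos.mpr t0, t1.trans_lt (hh k).1.2⟩
    refine ⟨t, hU ⟨by simpa using t1.trans_lt k2, t0⟩, ?_⟩
    have c1 := mφ t2 (hh k).1 t1
    have c2 := hφ _ t2
    simp only [Function.comp] at k1
    rw [lt_div_iff₀ (hφ _ (hh k).1)] at k1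
    rw [abs_div, abs_of_pos c2, lt_div_iff₀ c2, ← sub_div, abs_div,
      abs_of_pos (a := (20 : ℝ)) (by norm_num), split x t (k + 1), Finset.sum_range_succ]
    have b2 := abs_le.mp (hi x t (k + 1))
    have b3 := lo x t k
    have b4 : w (h k) ≤ |a k (x + t) - a k x| := by
      rw [← mul_sub, abs_mul, abs_of_pos (A0 k)]
      exact le_mul_of_one_le_right (A0 k).le hu2
    have b5 : 99 * (|t| * ∑ j ∈ Finset.range k, w (h j) / h j) ≤ w (h k) := by
      have e : h k * (w (h k) / h k) = w (h k) := by have := (h0 k).ne'; field_simp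
      nlinarith [mul_le_mul_of_nonneg_left (low k) (abs_nonneg t),
        mul_le_mul_of_nonneg_right t1 (div_pos (A0 k) (h0 k)).le]
    have b6 := abs_le.mp b3
    have b7 : w (h k) / 2 ≤ |∑ j ∈ Finset.range k, (a j (x + t) - a j x) + (a k (x + t) - a k x) +
        ∑' j, (a (j + (k + 1)) (x + t) - a (j + (k + 1)) x)| := by
      rw [le_abs] at b4 ⊢
      rcases b4 with b4 | b4
      · left; linarith [(hs k).1, A0 k]
      · right; linarith [(hs k).1, A0 k]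
    nlinarith [mul_le_mul_of_nonneg_right (le_abs_self M) c2.le,
      mul_le_mul_of_nonneg_left c1 (abs_nonneg M)]

end Pool.Agent.Results.MP_a2bddf_an.Yes
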